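import Mathlib
import Pool.Agent.H40E9.CM.Rig
import Pool.Agent.H40E9.CM.Seq
/-!
# Limit sets of sets of gaps have the four point property

`D s k` says that `k` is a (normalised) gap at the scale number `s`.
-/

set_option autoImplicit false

namespace Pool.Agent.H40E9.SG

open Finset Filter
open Pool.Agent.H40E9.CM (dichotomy ultra_seq ultra_color)

/-- among four classes of numbers, ordered and congruent modulo `L`, there is a gap between two classes -/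
def FourClasses (K L : ℕ) (D : ℕ → ℕ → Prop) : Prop :=
  ∀ A : Fin 4 → Fin K → ℕ, (∀ g, Function.Injective (A g)) →
    (∀ g g', g < g' → ∀ k k', A g k < A g' k') → (∀ g k k', A g k ≡ A g k' [MOD L]) →
    ∀ᶠ s : ℕ in atTop, ∃ g g', g < g' ∧ ∃ k k', D s (A g' k' - A g k)

/-- the numbers which are gaps for almost all `s` -/
def GG (D : ℕ → ℕ → Prop) (V : Ultrafilter ℕ) : Set ℕ := {k | ∀ᶠ s in (V : Filter ℕ), D s k}

/-- the limit set -/
def PP (D : ℕ → ℕ → Prop) (V U : Ultrafilter ℕ) : Set ℤ :=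
  {z | ∀ᶠ i : ℕ in (U : Filter ℕ), ∀ᶠ j : ℕ in (U : Filter ℕ), ∃ k ∈ GG D V, (k : ℤ) = j - i + z}

theorem star_PP {K L : ℕ} (hL : 0 < L) {D : ℕ → ℕ → Prop} (h4 : FourClasses K L D)
    (V U : Ultrafilter ℕ) (hV : (V : Filter ℕ) ≤ atTop) (hU : (U : Filter ℕ) ≤ atTop) (γ : Fin 4 → ℤ) :
    ∃ a b : Fin 4, a < b ∧ γ b - γ a ∈ PP D V U := by
  classical
  by_contra hcon
  push Not at hcon
  have : NeZero L := ⟨hL.ne'⟩
  obtain ⟨c, hc⟩ := ultra_color U (fun i => ((i : ℕ) : ZMod L))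
  set M : ℕ := 2 * ∑ a, (γ a).natAbs with hM
  have hMa : ∀ a, 2 * (γ a).natAbs ≤ M := by
    intro a
    have := single_le_sum (f := fun a => (γ a).natAbs) (fun _ _ => Nat.zero_le _) (mem_univ a)
    omega
  have hR : ∀ᶠ i : ℕ in (U : Filter ℕ), ∀ᶠ j : ℕ in (U : Filter ℕ), i + M < j ∧
      ∀ ab : Fin 4 × Fin 4, ab.1 < ab.2 → ¬ ∃ k ∈ GG D V, (k : ℤ) = j - i + (γ ab.2 - γ ab.1) := by
    have h1 : ∀ᶠ i : ℕ in (U : Filter ℕ), ∀ᶠ j : ℕ in (U : Filter ℕ), ∀ ab : Fin 4 × Fin 4, ab.1 < ab.2 →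
        ¬ ∃ k ∈ GG D V, (k : ℤ) = j - i + (γ ab.2 - γ ab.1) := by
      simp only [eventually_all]
      intro ab hab
      have h1 := hcon ab.1 ab.2 hab
      unfold PP at h1
      rw [Set.mem_ofPred_eq, ← Ultrafilter.eventually_not] at h1
      filter_upwards [h1] with i hi
      rwa [← Ultrafilter.eventually_not] at hi
    filter_upwards [h1] with i hi
    exact (((eventually_gt_atTop (i + M)).filter_mono hU)).and hi
  obtain ⟨s, hs1, hs2, hs3⟩ := ultra_seq U hU (fun i => ((i : ℕ) : ZMod L) = c) _ hc hR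
  -- the classes
  have hidx : ∀ a b : Fin 4, ∀ k l : Fin K, a < b → (a : ℕ) * K + k < (b : ℕ) * K + l := by
    intro a b k l hab
    have h1 : (a : ℕ) + 1 ≤ b := hab
    have h2 : ((a : ℕ) + 1) * K ≤ b * K := Nat.mul_le_mul_right _ h1
    have h3 := k.2
    have h4 : ((a : ℕ) + 1) * K = a * K + K := by ring
    omega
  have hnn : ∀ a, 0 ≤ (M : ℤ) + γ a := by
    intro a
    have := hMa a
    omega
  set A : Fin 4 → Fin K → ℕ := fun a k => s ((a : ℕ) * K + k) + ((M : ℤ) + γ a).toNat with hA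
  have hAv : ∀ a k, ((A a k : ℕ) : ℤ) = s ((a : ℕ) * K + k) + (M + γ a) := by
    intro a k
    show ((s ((a : ℕ) * K + k) + ((M : ℤ) + γ a).toNat : ℕ) : ℤ) = _
    push_cast
    rw [Int.toNat_of_nonneg (hnn a)]
  have hdiff : ∀ a b k l, a < b → ((A b l - A a k : ℕ) : ℤ) =
      s ((b : ℕ) * K + l) - s ((a : ℕ) * K + k) + (γ b - γ a) ∧ A a k < A b l := by
    intro a b k l hab
    have h1 := (hs3 _ _ (hidx a b k l hab)).1
    have h2 := hAv a k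
    have h3 := hAv b l
    have h4 := hMa a
    have h5 := hMa b
    constructor
    · have : A a k ≤ A b l := by omega
      rw [Nat.cast_sub this, h2, h3]
      ring
    · omega
  have hev := h4 A (by
      intro a k l hkl
      have h1 : s ((a : ℕ) * K + k) = s ((a : ℕ) * K + l) := Nat.add_right_cancel hkl
      rcases lt_trichotomy k l with h2 | h2 | h2
      · have := hs1 ((a : ℕ) * K + k) ((a : ℕ) * K + l) (by
          have : (k : ℕ) < l := h2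
          omega)
        omega
      · exact h2
      · have := hs1 ((a : ℕ) * K + l) ((a : ℕ) * K + k) (by
          have : (l : ℕ) < k := h2
          omega)
        omega)
    (fun a b hab k l => (hdiff a b k l hab).2)
    (fun a k l => by
      apply Nat.ModEq.add_right
      rw [← ZMod.natCast_eq_natCast_iff, hs2, hs2])
  have hev2 : ∀ᶠ t in (V : Filter ℕ), ∃ τ : (Fin 4 × Fin 4) × (Fin K × Fin K), τ.1.1 < τ.1.2 ∧
      D t (A τ.1.2 τ.2.2 - A τ.1.1 τ.2.1) := by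
    filter_upwards [hV hev] with t ht
    obtain ⟨g, g', hg, k, k', hD⟩ := ht
    exact ⟨((g, g'), (k, k')), hg, hD⟩
  obtain ⟨τ, hτ⟩ : ∃ τ : (Fin 4 × Fin 4) × (Fin K × Fin K), ∀ᶠ t in (V : Filter ℕ), τ.1.1 < τ.1.2 ∧
      D t (A τ.1.2 τ.2.2 - A τ.1.1 τ.2.1) := by
    by_contra hno
    rw [not_exists] at hno
    have h1 : ∀ᶠ t in (V : Filter ℕ), ∀ τ : (Fin 4 × Fin 4) × (Fin K × Fin K), ¬ (τ.1.1 < τ.1.2 ∧
      D t (A τ.1.2 τ.2.2 - A τ.1.1 τ.2.1)) := by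
      rw [eventually_all]
      intro τ
      exact Ultrafilter.eventually_not.2 (hno τ)
    obtain ⟨t, ⟨τ, h2⟩, h3⟩ := (hev2.and h1).exists
    exact h3 τ h2
  obtain ⟨⟨a, b⟩, k, l⟩ := τ
  obtain ⟨t, hab, -⟩ := hτ.exists
  refine (hs3 _ _ (hidx a b k l hab)).2 (a, b) hab ⟨A b l - A a k, ?_, (hdiff a b k l hab).1⟩
  exact hτ.mono fun t ht => ht.2

theorem star {K L : ℕ} (hL : 0 < L) {D : ℕ → ℕ → Prop} (h4 : FourClasses K L D)
    (V U : Ultrafilter ℕ) (hV : (V : Filter ℕ) ≤ atTop) (hU : (U : Filter ℕ) ≤ atTop) :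
    Pool.Agent.H40E9.CM.Star (PP D V U) := by
  intro x y z w
  obtain ⟨a, b, hab, h⟩ := star_PP hL h4 V U hV hU ![x, y, z, w]
  fin_cases a <;> fin_cases b <;> first | exact absurd hab (by decide) | skip
  · exact Or.inl h
  · exact Or.inr (Or.inl h)
  · exact Or.inr (Or.inr (Or.inl h))
  · exact Or.inr (Or.inr (Or.inr (Or.inl h)))
  · exact Or.inr (Or.inr (Or.inr (Or.inr (Or.inl h))))
  · exact Or.inr (Or.inr (Or.inr (Or.inr (Or.inr h))))

/-- a homomorphism from the integers onto `ZMod E` vanishes exactly at the multiples of `E` -/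
theorem ker_int {E : ℕ} (χ : ℤ →+ ZMod E) (x : ℤ) (hx : (E : ℤ) ∣ x) : χ x = 0 := by
  obtain ⟨m, rfl⟩ := hx
  rw [← smul_eq_mul, map_zsmul, zsmul_eq_mul]
  simp

/-- **the structure of the sets of gaps** -/
theorem structured {K L : ℕ} (hL : 0 < L) {D : ℕ → ℕ → Prop} (h4 : FourClasses K L D) :
    ∃ E : ℕ, (E = 1 ∨ E = 2 ∨ E = 3) ∧
      (∀ h : ℤ, (E : ℤ) ∣ h → ∀ B : ℕ, ∃ g₁ g₂ g₃ : ℕ, B < g₁ ∧ B < g₂ ∧ B < g₃ ∧
        h + g₃ = g₁ + g₂ ∧ ∃ᶠ s in atTop, D s g₁ ∧ D s g₂ ∧ D s g₃) ∧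
      (E ≠ 1 → ∀ F : Finset ℤ, (∀ f ∈ F, (E : ℤ) ∣ f) → ∀ B : ℕ, ∃ z : ℕ, B < z ∧
        ∃ᶠ s in atTop, ∀ f ∈ F, ∃ k : ℕ, (k : ℤ) = z + f ∧ D s k) := by
  classical
  obtain ⟨V, hV⟩ : ∃ V : Ultrafilter ℕ, (V : Filter ℕ) ≤ atTop := ⟨Ultrafilter.of atTop, Ultrafilter.of_le _⟩
  obtain ⟨E, hE, χ, -, h1, h2⟩ := dichotomy (star hL h4 V V hV hV)
  refine ⟨E, hE, ?_, ?_⟩
  · intro h hh B
    obtain ⟨p, hp, q, hq, r, hr, hpqr⟩ := h1 h (ker_int χ h hh)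
    have hp' : ∀ᶠ i : ℕ in (V : Filter ℕ), ∀ᶠ j : ℕ in (V : Filter ℕ), ∃ k ∈ GG D V, (k : ℤ) = j - i + p := hp
    have hq' : ∀ᶠ i : ℕ in (V : Filter ℕ), ∀ᶠ j : ℕ in (V : Filter ℕ), ∃ k ∈ GG D V, (k : ℤ) = j - i + q := hq
    have hr' : ∀ᶠ i : ℕ in (V : Filter ℕ), ∀ᶠ j : ℕ in (V : Filter ℕ), ∃ k ∈ GG D V, (k : ℤ) = j - i + r := hr
    obtain ⟨i, hi1, hi2⟩ := (hp'.and hr').exists
    obtain ⟨j, ⟨hj1, hj2⟩, hj3⟩ := ((hi1.and hq').and
      ((eventually_gt_atTop (i + B + p.natAbs + q.natAbs + r.natAbs)).filter_mono hV)).exists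
    obtain ⟨l, ⟨hl1, hl2⟩, hl3⟩ := ((hi2.and hj2).and
      ((eventually_gt_atTop (j + B + p.natAbs + q.natAbs + r.natAbs)).filter_mono hV)).exists
    obtain ⟨g₁, hg1, e1⟩ := hj1
    obtain ⟨g₂, hg2, e2⟩ := hl2
    obtain ⟨g₃, hg3, e3⟩ := hl1
    refine ⟨g₁, g₂, g₃, by omega, by omega, by omega, by omega, ?_⟩
    have h5 : ∀ᶠ s in (V : Filter ℕ), D s g₁ ∧ D s g₂ ∧ D s g₃ := by
      have e1 : ∀ᶠ s in (V : Filter ℕ), D s g₁ := hg1
      have e2 : ∀ᶠ s in (V : Filter ℕ), D s g₂ := hg2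
      have e3 : ∀ᶠ s in (V : Filter ℕ), D s g₃ := hg3
      filter_upwards [e1, e2, e3] with s a b c using ⟨a, b, c⟩
    exact h5.frequently.filter_mono hV
  · intro hE1 F hF B
    have h3 : ∀ f ∈ F, ∀ᶠ i : ℕ in (V : Filter ℕ), ∀ᶠ j : ℕ in (V : Filter ℕ), ∃ k ∈ GG D V, (k : ℤ) = j - i + f :=
      fun f hf => h2 hE1 f (ker_int χ f (hF f hf))
    have h4 : ∀ᶠ i : ℕ in (V : Filter ℕ), ∀ᶠ j : ℕ in (V : Filter ℕ), ∀ f ∈ F, ∃ k ∈ GG D V, (k : ℤ) = j - i + f := by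
      simp only [Filter.eventually_all_finset]
      exact h3
    obtain ⟨i, hi⟩ := h4.exists
    obtain ⟨j, hj1, hj2⟩ := (hi.and ((eventually_gt_atTop (i + B)).filter_mono hV)).exists
    refine ⟨j - i, by omega, ?_⟩
    have h5 : ∀ᶠ s in (V : Filter ℕ), ∀ f ∈ F, ∃ k : ℕ, (k : ℤ) = (j - i : ℕ) + f ∧ D s k := by
      rw [Filter.eventually_all_finset]
      intro f hf
      obtain ⟨k, hk, e⟩ := hj1 f hf
      have hk' : ∀ᶠ s in (V : Filter ℕ), D s k := hk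
      filter_upwards [hk'] with s hs
      exact ⟨k, by omega, hs⟩
    exact h5.frequently.filter_mono hV

end Pool.Agent.H40E9.SG
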