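import Mathlib
import Pool.Agent.H40E9.SG.Four
import Pool.Agent.H40E9.SG.Lim
/-!
# Every multiple of thirty-six is a combination of three gaps between consecutive primes
-/

set_option autoImplicit false

namespace Pool.Agent.H40E9.SG

open Finset Filter
open Pool.Agent.R493.CG (isoN)

/-- `g` is a gap at least `x / log ^ B x` times up to `x` -/
def Often (B q a P : ℕ) (x : ℝ) (g : ℕ) : Prop := x / Real.log x ^ B ≤ (isoN q a P g x : ℝ)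

theorem seqs : ∃ B : ℕ, ∀ P q a : ℕ, 0 < P → 6 ∣ P → 1 ≤ q → q ∣ P → a.Coprime q →
    ∀ X : ℕ → ℝ, Tendsto X atTop atTop → ∃ E : ℕ, (E = 1 ∨ E = 2 ∨ E = 3) ∧
      (∀ h : ℤ, ((E * P : ℕ) : ℤ) ∣ h → ∀ G : ℕ, ∃ g₁ g₂ g₃ : ℕ, (G < g₁ ∧ G < g₂ ∧ G < g₃) ∧
        (P ∣ g₁ ∧ P ∣ g₂ ∧ P ∣ g₃) ∧ h = g₁ + g₂ - g₃ ∧
        ∃ᶠ s in atTop, Often B q a P (X s) g₁ ∧ Often B q a P (X s) g₂ ∧ Often B q a P (X s) g₃) ∧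
      (E ≠ 1 → ∀ F : Finset ℤ, (∀ f ∈ F, ((E * P : ℕ) : ℤ) ∣ f) → ∀ G : ℕ, ∃ z : ℕ, G < z ∧ P ∣ z ∧
        ∃ᶠ s in atTop, ∀ f ∈ F, ∃ g : ℕ, (g : ℤ) = z + f ∧ Often B q a P (X s) g) := by
  classical
  obtain ⟨K, B, hK, h⟩ := four
  refine ⟨B, fun P q a hP h6 hq hqP haq X hX => ?_⟩
  obtain ⟨E, hE, h1, h2⟩ := structured (K := K) (Nat.factorial_pos (4 * K))
    (D := fun s k => Often B q a P (X s) (P * k)) (by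
      intro A hA1 hA2 hA3
      exact hX.eventually (h P q a hP h6 hq hqP haq A hA1 hA2 hA3))
  have hP0 : (P : ℤ) ≠ 0 := by exact_mod_cast hP.ne'
  refine ⟨E, hE, ?_, ?_⟩
  · intro t ht G
    obtain ⟨m, rfl⟩ := ht
    obtain ⟨g₁, g₂, g₃, b1, b2, b3, e, hf⟩ := h1 (E * m) (dvd_mul_right _ _) G
    have hle : ∀ g : ℕ, G < g → G < P * g := fun g hg => lt_of_lt_of_le hg (Nat.le_mul_of_pos_left g hP)
    refine ⟨P * g₁, P * g₂, P * g₃, ⟨hle _ b1, hle _ b2, hle _ b3⟩,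
      ⟨dvd_mul_right _ _, dvd_mul_right _ _, dvd_mul_right _ _⟩, ?_, hf⟩
    push_cast
    linear_combination (P : ℤ) * e
  · intro hE1 F hF G
    obtain ⟨z, hz, hf⟩ := h2 hE1 (F.image (fun f => f / P)) (by
      intro f hf
      obtain ⟨f', hf', rfl⟩ := mem_image.1 hf
      obtain ⟨m, rfl⟩ := hF f' hf'
      refine ⟨m, ?_⟩
      push_cast
      rw [mul_right_comm, Int.mul_ediv_cancel _ hP0]) G
    refine ⟨P * z, lt_of_lt_of_le hz (Nat.le_mul_of_pos_left z hP), dvd_mul_right _ _, ?_⟩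
    refine hf.mono fun s hs f hfF => ?_
    obtain ⟨k, hk, hO⟩ := hs (f / P) (mem_image_of_mem _ hfF)
    refine ⟨P * k, ?_, hO⟩
    have hd : (P : ℤ) ∣ f := dvd_trans ⟨(E : ℤ), by push_cast; ring⟩ (hF f hfF)
    have h3 := Int.mul_ediv_cancel' hd
    push_cast
    rw [hk, mul_add, h3]

theorem scales : ∃ B : ℕ, ∀ P q a : ℕ, 0 < P → 6 ∣ P → 1 ≤ q → q ∣ P → a.Coprime q →
    (∀ X : ℕ → ℝ, Tendsto X atTop atTop → ∃ E : ℕ, (E = 1 ∨ E = 2 ∨ E = 3) ∧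
      (∀ h : ℤ, ((E * P : ℕ) : ℤ) ∣ h → ∀ G : ℕ, ∃ g₁ g₂ g₃ : ℕ, (G < g₁ ∧ G < g₂ ∧ G < g₃) ∧
        (P ∣ g₁ ∧ P ∣ g₂ ∧ P ∣ g₃) ∧ h = g₁ + g₂ - g₃ ∧
        ∃ᶠ s in atTop, Often B q a P (X s) g₁ ∧ Often B q a P (X s) g₂ ∧ Often B q a P (X s) g₃) ∧
      (E ≠ 1 → ∀ F : Finset ℤ, (∀ f ∈ F, ((E * P : ℕ) : ℤ) ∣ f) → ∀ G : ℕ, ∃ z : ℕ, G < z ∧ P ∣ z ∧
        ∃ᶠ s in atTop, ∀ f ∈ F, ∃ g : ℕ, (g : ℤ) = z + f ∧ Often B q a P (X s) g)) ∧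
    (∀ h : ℤ, ((6 * P : ℕ) : ℤ) ∣ h → ∀ G : ℕ, ∃ M : ℕ, ∀ x : ℝ, M ≤ x → ∃ g₁ g₂ g₃ : ℕ,
      (G < g₁ ∧ G < g₂ ∧ G < g₃) ∧ (g₁ ≤ M ∧ g₂ ≤ M ∧ g₃ ≤ M) ∧
        (P ∣ g₁ ∧ P ∣ g₂ ∧ P ∣ g₃) ∧ h = g₁ + g₂ - g₃ ∧
        Often B q a P x g₁ ∧ Often B q a P x g₂ ∧ Often B q a P x g₃) := by
  obtain ⟨B, hB⟩ := seqs
  refine ⟨B, fun P q a hP h6 hq hqP haq => ⟨hB P q a hP h6 hq hqP haq, fun h hh G => ?_⟩⟩
  by_contra hcon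
  push Not at hcon
  choose X hX1 hX2 using hcon
  have hX : Tendsto X atTop atTop := tendsto_atTop_mono hX1 tendsto_natCast_atTop_atTop
  obtain ⟨E, hE, h1, -⟩ := hB P q a hP h6 hq hqP haq X hX
  obtain ⟨g₁, g₂, g₃, b, d, e, hf⟩ := h1 h (by
    refine dvd_trans ?_ hh
    have hE6 : E ∣ 6 := by rcases hE with rfl | rfl | rfl <;> norm_num
    exact_mod_cast Nat.mul_dvd_mul_right hE6 P) G
  obtain ⟨s, ⟨f1, f2, f3⟩, hs⟩ := (hf.and_eventually (eventually_ge_atTop (g₁ + g₂ + g₃))).exists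
  exact hX2 s g₁ g₂ g₃ b ⟨by omega, by omega, by omega⟩ d e f1 f2 f3

end Pool.Agent.H40E9.SG
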